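import Pool.Agent.W102.GI.Defs

set_option autoImplicit false

namespace Pool.Agent.W696.GI

open Pool.Agent.W102.GI Finset

theorem T_ext (h3 : GZ) (n M : ℕ) (hM : n / 2 + 1 ≤ M) (f : ℕ → ℚ) :
    ∑ k ∈ range (n / 2 + 1), gam n k * f k = ∑ k ∈ range M, gam n k * f k := by
  refine Finset.sum_subset (Finset.range_mono hM) fun k _ hk => ?_
  rw [Finset.mem_range, not_lt] at hk
  rw [h3 n k (by omega), zero_mul]

theorem shift1 (a c : ℕ → ℚ) (M : ℕ) (hM : 1 ≤ M) (h : a (M - 1) = 0) :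
    ∑ k ∈ range M, a k * c (k + 1) = ∑ k ∈ range M, (if k = 0 then 0 else a (k - 1)) * c k := by
  obtain ⟨N, rfl⟩ : ∃ N, M = N + 1 := ⟨M - 1, by omega⟩
  rw [Nat.add_sub_cancel] at h
  rw [Finset.sum_range_succ, h, zero_mul, add_zero, Finset.sum_range_succ']
  simp

theorem shift2 (a c : ℕ → ℚ) (M : ℕ) (hM : 2 ≤ M) (h : a (M - 1) = 0) (h' : a (M - 2) = 0) :
    ∑ k ∈ range M, a k * c (k + 2) = ∑ k ∈ range M, (if k < 2 then 0 else a (k - 2)) * c k := by
  obtain ⟨N, rfl⟩ : ∃ N, M = N + 2 := ⟨M - 2, by omega⟩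
  have e1 : N + 2 - 1 = N + 1 := by omega
  have e2 : N + 2 - 2 = N := by omega
  rw [e1] at h
  rw [e2] at h'
  rw [Finset.sum_range_succ, Finset.sum_range_succ, h, h', zero_mul, zero_mul, add_zero, add_zero,
    Finset.sum_range_succ', Finset.sum_range_succ']
  simp

theorem base0 (r : ℕ) :
    ∑ k ∈ range (0 / 2 + 1), gam 0 k * PowerSeries.coeff r (hs 0 k) = (F 0 r : ℚ) := by
  simp [gam, hs, S, F]

theorem base1 (r : ℕ) :
    ∑ k ∈ range (1 / 2 + 1), gam 1 k * PowerSeries.coeff r (hs 1 k) = (F 1 r : ℚ) := by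
  have hF : (F 1 r : ℚ) = 2 * r + 1 := by
    simp [F]
  rw [hF]
  have h1 : (1 : ℕ) / 2 + 1 = 1 := by norm_num
  rw [h1, Finset.sum_range_one]
  have h2 : hs 1 0 = S 1 + PowerSeries.X * S 1 := by
    simp [hs]
    ring
  rw [h2, map_add]
  rcases r with _ | r
  · simp [gam, S]
  · rw [PowerSeries.coeff_succ_X_mul]
    simp [gam, S]
    ring

theorem step (h1 : H1) (h2 : H2) (h3 : GZ) (n r : ℕ) :
    ((n : ℚ) + 2) * ∑ k ∈ range ((n + 2) / 2 + 1), gam (n + 2) k *
        PowerSeries.coeff r (hs (n + 2) k) =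
      (2 * (r : ℚ) + 1) * (∑ k ∈ range ((n + 1) / 2 + 1), gam (n + 1) k *
        PowerSeries.coeff r (hs (n + 1) k)) +
      (2 * (r : ℚ) ^ 2 + 2 * r + n + 1) * ∑ k ∈ range (n / 2 + 1), gam n k *
        PowerSeries.coeff r (hs n k) := by
  rw [T_ext h3 (n + 2) (n + 5) (by omega) (fun k => PowerSeries.coeff r (hs (n + 2) k)),
    T_ext h3 (n + 1) (n + 5) (by omega) (fun k => PowerSeries.coeff r (hs (n + 1) k)),
    T_ext h3 n (n + 5) (by omega) (fun k => PowerSeries.coeff r (hs n k))]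
  set c : ℕ → ℚ := fun k => PowerSeries.coeff r (hs (n + 2) k) with hc
  -- level n + 1
  have L1 : ∀ k, (2 * (r : ℚ) + 1) * (gam (n + 1) k * PowerSeries.coeff r (hs (n + 1) k)) =
      (2 * (k : ℚ) + 1) * gam (n + 1) k * c k +
      (4 * ((n : ℚ) + 1 - 2 * k) * gam (n + 1) k) * c (k + 1) := by
    intro k
    by_cases hk : 2 * k ≤ n + 1
    · have := h1 (n + 1) k r hk
      push_cast at this
      simp only [hc]
      linear_combination gam (n + 1) k * this
    · rw [h3 (n + 1) k (by omega)]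
      ring
  have L0 : ∀ k, (2 * (r : ℚ) ^ 2 + 2 * r + n + 1) *
      (gam n k * PowerSeries.coeff r (hs n k)) =
      (2 * (k : ℚ) ^ 2 + 2 * k + n + 1) * gam n k * c k +
      (4 * ((2 * (k : ℚ) + 1) * ((n : ℚ) - 2 * k) - k) * gam n k) * c (k + 1) +
      (8 * ((n : ℚ) - 2 * k) * ((n : ℚ) - 1 - 2 * k) * gam n k) * c (k + 2) := by
    intro k
    by_cases hk : 2 * k ≤ n
    · have e1 := h1 n k r hk
      have e2 := h1 (n + 1) k r (by omega)
      have e3 : PowerSeries.coeff r (hs n k) = c k - 4 * c (k + 1) := by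
        rw [h2 n k hk, map_sub]
        have : (4 : PowerSeries ℚ) * hs (n + 2) (k + 1) =
            PowerSeries.C (4 : ℚ) * hs (n + 2) (k + 1) := by
          rw [map_ofNat]
        rw [this, PowerSeries.coeff_C_mul]
      have e4 : ((n : ℚ) - 2 * k) * ((2 * (r : ℚ) + 1) * PowerSeries.coeff r (hs (n + 1) (k + 1)))
          = ((n : ℚ) - 2 * k) * ((2 * (k : ℚ) + 3) * c (k + 1) +
            4 * ((n : ℚ) - 1 - 2 * k) * c (k + 2)) := by
        rcases Nat.lt_or_ge (2 * k) n with h | h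
        · have := h1 (n + 1) (k + 1) r (by omega)
          push_cast at this
          simp only [hc]
          rw [this]
          ring
        · have : (n : ℚ) = 2 * k := by
            have : n = 2 * k := by omega
            exact_mod_cast this
          rw [this]
          ring
      push_cast at e1 e2
      have e2' : (2 * (r : ℚ) + 1) * PowerSeries.coeff r (hs (n + 1) k) =
          (2 * (k : ℚ) + 1) * c k + 4 * ((n : ℚ) + 1 - 2 * k) * c (k + 1) := e2
      have e5 : (2 * (r : ℚ) + 1) ^ 2 * PowerSeries.coeff r (hs n k) =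
          (2 * (k : ℚ) + 1) ^ 2 * c k + ((2 * (k : ℚ) + 1) * 4 * ((n : ℚ) + 1 - 2 * k) +
            4 * ((n : ℚ) - 2 * k) * (2 * k + 3)) * c (k + 1) +
          16 * ((n : ℚ) - 2 * k) * ((n : ℚ) - 1 - 2 * k) * c (k + 2) := by
        linear_combination (2 * (r : ℚ) + 1) * e1 + (2 * (k : ℚ) + 1) * e2' + 4 * e4
      linear_combination (gam n k / 2) * e5 + gam n k * ((n : ℚ) + 1 / 2) * e3
    · rw [h3 n k (by omega)]
      ring
  rw [Finset.mul_sum, Finset.mul_sum, Finset.mul_sum]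
  simp only [L1, L0, Finset.sum_add_distrib]
  rw [shift1 (fun k => 4 * ((n : ℚ) + 1 - 2 * k) * gam (n + 1) k) c (n + 5) (by omega)
      (by rw [h3 (n + 1) _ (by omega), mul_zero]),
    shift1 (fun k => 4 * ((2 * (k : ℚ) + 1) * ((n : ℚ) - 2 * k) - k) * gam n k) c (n + 5)
      (by omega) (by rw [h3 n _ (by omega), mul_zero]),
    shift2 (fun k => 8 * ((n : ℚ) - 2 * k) * ((n : ℚ) - 1 - 2 * k) * gam n k) c (n + 5)
      (by omega) (by rw [h3 n _ (by omega), mul_zero])
      (by rw [h3 n _ (by omega), mul_zero])]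
  simp only [← Finset.sum_add_distrib]
  refine Finset.sum_congr rfl fun k _ => ?_
  have hn : ((n : ℚ) + 2) ≠ 0 := by positivity
  have hg : ((n : ℚ) + 2) * gam (n + 2) k = (2 * (k : ℚ) + 1) * gam (n + 1) k
      + 4 * ((n : ℚ) + 3 - 2 * k) * (if k = 0 then 0 else gam (n + 1) (k - 1))
      + (2 * (k : ℚ) ^ 2 + 2 * k + n + 1) * gam n k
      + 4 * ((2 * (k : ℚ) - 1) * ((n : ℚ) + 2 - 2 * k) - k + 1) *
        (if k = 0 then 0 else gam n (k - 1))
      + 8 * ((n : ℚ) + 4 - 2 * k) * ((n : ℚ) + 3 - 2 * k) * (if k < 2 then 0 else gam n (k - 2)) := by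
    rw [gam]
    field_simp
  rw [← mul_assoc, hg]
  rcases k with _ | _ | k
  · simp
    ring
  · simp
    ring
  · rw [if_neg (by omega), if_neg (by omega), if_neg (by omega), if_neg (by omega),
      if_neg (by omega), if_neg (by omega)]
    have e1 : k + 1 + 1 - 1 = k + 1 := rfl
    have e2 : k + 1 + 1 - 2 = k := by omega
    rw [e1, e2]
    push_cast
    ring

theorem GSUM (h1 : H1) (h2 : H2) (h3 : GZ) (h4 : FREC) : Pool.Agent.W102.GI.GSUM := by
  intro n r
  induction n using Nat.strong_induction_on with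
  | _ n ih =>
    rcases n with _ | _ | n
    · exact base0 r
    · exact base1 r
    · have s := step h1 h2 h3 n r
      rw [ih (n + 1) (by omega), ih n (by omega)] at s
      have hf := h4 n r
      have hf' : ((n : ℚ) + 2) * F (n + 2) r = (2 * (r : ℚ) + 1) * F (n + 1) r +
          (2 * (r : ℚ) ^ 2 + 2 * r + n + 1) * F n r := by
        exact_mod_cast hf
      have hn : ((n : ℚ) + 2) ≠ 0 := by positivity
      exact mul_left_cancel₀ hn (s.trans hf'.symm)

end Pool.Agent.W696.GI
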